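import Pool.Agent.W355.FR.Stm

/-! Project FR, part ANA: `max(|Δ|,|E₄|³) Im^6` is bounded below on the upper half plane. -/

set_option autoImplicit false

namespace Pool.Agent.W712.FR

open UpperHalfPlane ModularForm Filter Topology CongruenceSubgroup
open scoped MatrixGroups

theorem inv_of {k : ℕ} {F : Type*} [FunLike F ℍ ℂ] [SlashInvariantFormClass F 𝒮ℒ ((2 * k : ℕ) : ℤ)]
    (f : F) (g : SL(2, ℤ)) (τ : ℍ) : ‖f (g • τ)‖ * (g • τ).im ^ k = ‖f τ‖ * τ.im ^ k := by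
  have h1 : (⇑f : ℍ → ℂ) ∣[((2 * k : ℕ) : ℤ)] g = ⇑f :=
    SlashInvariantFormClass.slash_action_eq (Γ := 𝒮ℒ) f _ ⟨g, rfl⟩
  have h := petersson_slash_SL ((2 * k : ℕ) : ℤ) f f g τ
  rw [h1] at h
  have h2 := congrArg norm h
  simp only [petersson, norm_mul, RCLike.norm_conj, norm_pow, Complex.norm_real,
    Real.norm_of_nonneg (im_pos _).le, zpow_natCast] at h2
  have e : ∀ σ : ℍ, ‖f σ‖ * ‖f σ‖ * σ.im ^ (2 * k) = (‖f σ‖ * σ.im ^ k) ^ 2 := by
    intro σ; ring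
  rw [e, e] at h2
  have p : ∀ σ : ℍ, 0 ≤ ‖f σ‖ * σ.im ^ k := fun σ =>
    mul_nonneg (norm_nonneg _) (pow_nonneg (im_pos σ).le _)
  exact ((sq_eq_sq₀ (p _) (p _)).mp h2).symm

theorem tendE4 : Tendsto (fun τ : ℍ => ModularForm.E₄ τ) atImInfty (𝓝 1) := by
  have hper := SlashInvariantFormClass.periodic_comp_ofComplex (h := 1) ModularForm.E₄
    one_mem_strictPeriods_SL
  have han := ModularFormClass.analyticAt_cuspFunction_zero (h := 1) ModularForm.E₄ one_pos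
    one_mem_strictPeriods_SL
  have h0 : cuspFunction 1 ModularForm.E₄ 0 = 1 := by
    have := EisensteinSeries.E_qExpansion_coeff_zero (k := 4) (by norm_num) ⟨2, rfl⟩
    simpa [qExpansion_coeff] using this
  have h1 := han.continuousAt.tendsto.comp (qParam_tendsto_atImInfty (h := 1) one_pos)
  rw [h0] at h1
  refine h1.congr fun τ => ?_
  exact eq_cuspFunction τ one_ne_zero (by simpa using hper)

theorem ana : Pool.Agent.W355.FR.P_ANA := by
  have hI : ∀ (g : SL(2, ℤ)) (τ : ℍ),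
      max ‖ModularForm.discriminant (g • τ)‖ (‖ModularForm.E₄ (g • τ)‖ ^ 3) * (g • τ).im ^ 6 =
      max ‖ModularForm.discriminant τ‖ (‖ModularForm.E₄ τ‖ ^ 3) * τ.im ^ 6 := by
    intro g τ
    have h1 : ‖ModularForm.discriminant (g • τ)‖ * (g • τ).im ^ 6 =
      ‖ModularForm.discriminant τ‖ * τ.im ^ 6 := inv_of (k := 6) CuspForm.discriminant g τ
    have h2 : ‖ModularForm.E₄ (g • τ)‖ * (g • τ).im ^ 2 =
      ‖ModularForm.E₄ τ‖ * τ.im ^ 2 := inv_of (k := 2) ModularForm.E₄ g τ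
    rw [max_mul_of_nonneg _ _ (pow_nonneg (im_pos _).le _),
      max_mul_of_nonneg _ _ (pow_nonneg (im_pos _).le _)]
    have e : ∀ σ : ℍ, ‖ModularForm.E₄ σ‖ ^ 3 * σ.im ^ 6 = (‖ModularForm.E₄ σ‖ * σ.im ^ 2) ^ 3 := by
      intro σ; ring
    rw [e, e, h2, h1]
  have hev : ∀ᶠ τ : ℍ in atImInfty, 1 / 2 < ‖ModularForm.E₄ τ‖ := by
    have h1 := tendE4.norm
    rw [norm_one] at h1
    exact h1.eventually (lt_mem_nhds (by norm_num))
  obtain ⟨Y, hY⟩ := (atImInfty_mem _).mp hev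
  have hD : Continuous (fun τ : ℍ => ‖ModularForm.discriminant τ‖ * τ.im ^ 6) := by
    have h1 : Continuous (fun τ : ℍ => CuspForm.discriminant τ) :=
      (ModularFormClass.holo CuspForm.discriminant).continuous
    exact h1.norm.mul (continuous_im.pow 6)
  have hcomp := ModularGroup.isCompact_truncatedFundamentalDomain Y
  obtain ⟨c1, hc1, hc1'⟩ : ∃ c : ℝ, 0 < c ∧ ∀ τ ∈ ModularGroup.truncatedFundamentalDomain Y,
      c ≤ ‖ModularForm.discriminant τ‖ * τ.im ^ 6 := by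
    rcases Set.eq_empty_or_nonempty (ModularGroup.truncatedFundamentalDomain Y) with he | he
    · exact ⟨1, one_pos, by simp [he]⟩
    · obtain ⟨τ0, _, hτ0⟩ := hcomp.exists_isMinOn he hD.continuousOn
      refine ⟨_, mul_pos (norm_pos_iff.mpr (ModularForm.discriminant_ne_zero τ0))
        (pow_pos (im_pos τ0) 6), fun τ hτ => hτ0 hτ⟩
  refine ⟨min c1 ((1 / 2) ^ 3 * (1 / 2) ^ 6), lt_min hc1 (by positivity), fun τ => ?_⟩
  obtain ⟨g, hg⟩ := ModularGroup.exists_smul_mem_fd τ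
  rw [← hI g τ]
  have him := ModularGroup.three_le_four_mul_im_sq_of_mem_fd hg
  have hp := im_pos (g • τ)
  by_cases hc : (g • τ).im ≤ Y
  · calc min c1 _ ≤ c1 := min_le_left _ _
      _ ≤ ‖ModularForm.discriminant (g • τ)‖ * (g • τ).im ^ 6 := hc1' _ ⟨hg, hc⟩
      _ ≤ _ := mul_le_mul_of_nonneg_right (le_max_left _ _) (pow_nonneg hp.le _)
  · have h1 : 1 / 2 < ‖ModularForm.E₄ (g • τ)‖ := hY _ (not_le.mp hc).le
    have h2 : 1 / 2 ≤ (g • τ).im := by nlinarith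
    calc min c1 _ ≤ (1 / 2) ^ 3 * (1 / 2) ^ 6 := min_le_right _ _
      _ ≤ ‖ModularForm.E₄ (g • τ)‖ ^ 3 * (g • τ).im ^ 6 := by gcongr
      _ ≤ _ := mul_le_mul_of_nonneg_right (le_max_right _ _) (pow_nonneg hp.le _)

end Pool.Agent.W712.FR
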